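import Pool.Agent.Helper73.VL.Sacks

/-!
The pairs `(A, B)` with the van Lambalgen property are exactly those for which every `A`-random
set forms a minimal pair with `B`.
-/

open MeasureTheory

namespace Pool.Agent.Results.MP_7624cc_lc.VanLambalgenPairs

open Pool.Agent.Helper73.VL

theorem MinPair.of_graphCE {X Y B : Cantor} (h : MinPair Y B) (hXY : GraphCE Y X) :
    MinPair X B :=
  fun C hCX hCB => h C (hCX.trans hXY.tred) hCB

/-- Almost every `X` forms a minimal pair with a given `B`. -/
theorem ae_minPair (B : Cantor) : ∀ᵐ X ∂lam, MinPair X B := by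
  classical
  have hcount : Set.Countable {C : Cantor | GraphCE B C} := by
    have h : {C : Cantor | GraphCE B C} ⊆
        (fun (p : (ℕ × Bool) × List Bool → Prop) (n : ℕ) =>
          decide (∃ k, p ((n, true), seg B k))) ''
          {p : (ℕ × Bool) × List Bool → Prop | PrimrecPred p} := by
      rintro C ⟨S, hS, -, h⟩
      refine ⟨fun x => S x.1 x.2, hS, ?_⟩
      funext n
      have := h (n, true)
      simp only at this
      simp only [← this]
      cases C n <;> simp
    exact ((countable_primrecPred).image _).mono h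
  have h1 : Set.Countable {C : Cantor | GraphCE B C ∧ ¬ Computable C} :=
    hcount.mono fun C hC => hC.1
  have h2 : ∀ C ∈ {C : Cantor | GraphCE B C ∧ ¬ Computable C}, ∀ᵐ X ∂lam, ¬ GraphCE X C := by
    rintro C ⟨-, hC⟩
    rw [ae_iff]
    simpa using null_upper_cone hC
  filter_upwards [(ae_ball_iff h1).2 h2] with X hX C hCX hCB
  by_contra hC
  exact hX C ⟨GraphCE.of_tred hCB, hC⟩ (GraphCE.of_tred hCX)

theorem result (A B : Cantor) :
    VanLambalgenProperty A B ↔ ∀ W : Cantor, MLRandom A W → MinPair W B := by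
  constructor
  · intro hvl W hW
    -- choose `X` sufficiently random
    have hmp : MeasurePreserving (Pool.Agent.Helper73.VL.trans id W) lam lam :=
      ⟨measurable_trans _ _, map_trans Function.injective_id W⟩
    have h1 : ∀ᵐ X ∂lam, MLRandom (Pool.Agent.Helper73.VL.join A W) X ∧ MinPair X B ∧
        MinPair (Pool.Agent.Helper73.VL.trans id W X) B := by
      filter_upwards [ae_mlRandom (Pool.Agent.Helper73.VL.join A W), ae_minPair B,
        hmp.quasiMeasurePreserving.ae (ae_minPair B)] with X a b c using ⟨a, b, c⟩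
    obtain ⟨X, hX, hXB, hYB⟩ := h1.exists
    set Y : Cantor := Pool.Agent.Helper73.VL.trans id W X with hYdef
    have hY' : Y = Pool.Agent.Helper73.VL.trans id X W := by
      funext i
      simp [hYdef, Pool.Agent.Helper73.VL.trans, Bool.xor_comm]
    have hWX : MLRandom A (Pool.Agent.Helper73.VL.join W X) := MLRandom.join hW hX
    have hXW := hWX.swap
    have hXA : MLRandom A X := hXW.left
    have hWrel : MLRandom (Pool.Agent.Helper73.VL.join A X) W := hXW.right_rel
    have hYrel : MLRandom (Pool.Agent.Helper73.VL.join A X) Y := by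
      rw [hY']
      exact hWrel.trans Primrec.id Function.injective_id (GraphCE.right A X)
    have hJ := ((hvl X Y).1.2 ⟨⟨hXA, hXB⟩, hYrel, hYB⟩).2
    refine MinPair.of_graphCE hJ ?_
    -- `W` is computable from the join
    have h2 : CE (Pool.Agent.Helper73.VL.join X Y) fun q : ℕ × Bool =>
        ∃ b : Bool, (X q.1 = b) ∧ (Y q.1 = xor b q.2) := by
      refine CE.ex (p := fun (q : ℕ × Bool) (b : Bool) => (X q.1 = b) ∧ (Y q.1 = xor b q.2)) ?_
      refine CE.and ?_ ?_
      · exact CE.comp (GraphCE.left X Y) (f := fun x : (ℕ × Bool) × Bool => (x.1.1, x.2))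
          (Primrec.pair (Primrec.fst.comp Primrec.fst) Primrec.snd)
      · refine CE.comp (GraphCE.right X Y)
          (f := fun x : (ℕ × Bool) × Bool => (x.1.1, xor x.2 x.1.2)) ?_
        exact Primrec.pair (Primrec.fst.comp Primrec.fst)
          ((Primrec.dom_bool₂ xor).comp Primrec.snd (Primrec.snd.comp Primrec.fst))
    refine h2.of_iff ?_
    rintro ⟨n, b⟩
    simp only [hYdef, Pool.Agent.Helper73.VL.trans, id]
    cases X n <;> cases W n <;> cases b <;> simp
  · intro h X Y
    have key : ∀ X Y : Cantor, Pool.Agent.Helper73.VL.join X Y ∈ Rand A B ↔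
        (X ∈ Rand A B ∧ Y ∈ Rand (Pool.Agent.Helper73.VL.join A X) B) := by
      intro X Y
      constructor
      · rintro ⟨hr, -⟩
        exact ⟨⟨hr.left, h _ hr.left⟩, hr.right_rel, h _ hr.swap.left⟩
      · rintro ⟨⟨hX, -⟩, hY, -⟩
        exact ⟨hX.join hY, h _ (hX.join hY)⟩
    refine ⟨key X Y, ?_⟩
    rw [← key Y X]
    constructor
    · rintro ⟨hr, -⟩
      exact ⟨hr.swap, h _ hr.swap⟩
    · rintro ⟨hr, -⟩
      exact ⟨hr.swap, h _ hr.swap⟩

end Pool.Agent.Results.MP_7624cc_lc.VanLambalgenPairs
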